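import Pool.Agent.KS6_3.ZL.H387R3.ZT.Stmts
import Pool.Agent.KS6_3.ZL.H134R3.ZT.C2aCore

/-! Project ZT (helper387), task ZT-C2a (helper134): the statements for `nrm`, `NP`. -/

set_option autoImplicit false
set_option maxHeartbeats 4000000

open Polynomial Matrix

namespace Pool.Agent.H134R3.ZT

open H387R3.ZT

noncomputable section

theorem NP_eq_DA (K : Type) {L : Type} [Field K] [Field L] [Algebra K L] [FiniteDimensional K L]
    (w : L[X]) : NP K w = DA K w := by
  rw [DA_eq K (Module.finBasis K L)]; rfl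

theorem nrm_eq_DA (k κ : Type) [Field k] [Finite k] [Field κ] [Algebra k κ] [FiniteDimensional k κ]
    (w : κ[X]) : nrm (Nat.card k) (Module.finrank k κ) w = (DA k w).map (algebraMap k κ) := by
  rw [DA_fin]; rfl

theorem X_pow_dvd_map_iff {k κ : Type} [Field k] [Field κ] [Algebra k κ] (M : ℕ) (p : k[X]) :
    (X : κ[X]) ^ M ∣ p.map (algebraMap k κ) ↔ (X : k[X]) ^ M ∣ p := by
  rw [X_pow_dvd_iff, X_pow_dvd_iff]
  refine forall_congr' fun d => imp_congr_right fun _ => ?_
  rw [coeff_map, map_eq_zero]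

theorem X_pow_dvd_DA_of_nrm {k κ : Type} [Field k] [Finite k] [Field κ] [Algebra k κ]
    [FiniteDimensional k κ] (M : ℕ) (w : κ[X]) (c : k[X])
    (h : (X : κ[X]) ^ M ∣ c.map (algebraMap k κ) - nrm (Nat.card k) (Module.finrank k κ) w) :
    (X : k[X]) ^ M ∣ c - DA k w := by
  rw [nrm_eq_DA, ← Polynomial.map_sub, X_pow_dvd_map_iff] at h
  exact h

theorem dvd_prod_sub {R ι : Type} [CommRing R] (a : R) (s : Finset ι) (c d : ι → R) (e : ι → ℕ)
    (h : ∀ i ∈ s, a ∣ c i - d i) : a ∣ ∏ i ∈ s, c i ^ e i - ∏ i ∈ s, d i ^ e i := by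
  rw [← Ideal.mem_span_singleton, ← Ideal.Quotient.eq, map_prod, map_prod]
  refine Finset.prod_congr rfl fun i hi => ?_
  rw [map_pow, map_pow, Ideal.Quotient.eq.2 (Ideal.mem_span_singleton.2 (h i hi))]

end

end Pool.Agent.H134R3.ZT
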